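import Pool.Agent.Lib.H43L.Main

/-!
# MP_b6a793_lc: a generalized b-scale set that is K_kappa, consistency

* If there is a weakly compact cardinal then some model of ZFC satisfies the first-order sentence `CondIn`: there are a weakly
  compact cardinal and a condensing algebra of the size of its successor.
* If `CondIn` holds in the universe of sets then for some weakly compact `κ` there is a `𝔟_κ`-scale `X` such that the `𝔟_κ`-scale
  set `X ∪ Fin_κ` is `K_κ`.
* The axiom of constructibility implies this for all weakly compact cardinals.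

The definitions are in `Pool/Agent/Lib/H43L/Defs.lean` (`CondIn`), `Pool/Agent/Lib/H5Z/Defs.lean` (`ModelsZFC`) and
`Pool/Agent/Lib/Helper43/KK/Defs.lean`.
-/

set_option autoImplicit false

universe u

open Cardinal Set
open Pool.Agent.H5Z (ModelsZFC)
open Pool.Agent.H43L (CondIn)
open Pool.Agent.Helper43.KK (Idx IsWeaklyCompact IsScale IsKKappa FinKappa VEqualsL)

namespace Pool.Agent.Results.MP_b6a793_lc.Consistency

/-- (1) From a weakly compact cardinal, a model of ZFC with `CondIn`; (2) `CondIn` in the universe of sets gives a weakly compact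
`κ` and a `𝔟_κ`-scale set which is `K_κ`; (3) `V = L` gives one for all weakly compact `κ`. -/
theorem result :
    ((∃ κ : Cardinal.{0}, IsWeaklyCompact κ) →
      ∃ (M : Type 1) (E : M → M → Prop), ModelsZFC E ∧ CondIn E) ∧
    (CondIn (fun x y : ZFSet.{0} => x ∈ y) → ∃ κ : Cardinal.{0}, IsWeaklyCompact κ ∧
      ∃ X : Set (Set (Idx κ)), IsScale κ X ∧ IsKKappa κ (X ∪ FinKappa κ)) ∧
    (VEqualsL.{u} → ∀ κ : Cardinal.{u}, IsWeaklyCompact κ →
      ∃ X : Set (Set (Idx κ)), IsScale κ X ∧ IsKKappa κ (X ∪ FinKappa κ)) :=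
  ⟨fun ⟨_, hκ⟩ => Pool.Agent.H43L.exists_model hκ, Pool.Agent.H43L.exists_scale_of_condIn,
    fun hVL _ hκ => Pool.Agent.Helper43.KK.exists_scale hVL hκ⟩

end Pool.Agent.Results.MP_b6a793_lc.Consistency
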